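import Pool.Agent.Q54.EM.StmE

/-! # Project EM: LZ -/

set_option autoImplicit false

namespace Pool.Agent.Q297.EM

open Finset Pool.Agent.Q54.EM

theorem lz : S_IDT → S_LMB → S_LZ := by
  intro hIDT hLMB ι _ p x k r l hk hL hm hr hK
  have hm1 : mu p x < 1 := by rw [hm]; exact hr
  have hid := hIDT ι p x k l hk hL hm1 hK
  obtain ⟨hlam, _⟩ := hLMB ι p x k l hk hL hm1 hK
  have hl : l ≠ 0 := hK.1.ne'
  have hll : lam k p x * l = l - r := by
    rw [hlam, hm]; field_simp
  have hs : ∑ i, (if 0 < x i then p i * (x i - 1) ^ 2 else 0) =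
      ∑ i, p i * x i ^ 2 - 2 * (∑ i, p i * x i) + ∑ i, (if 0 < x i then p i else 0) := by
    rw [Finset.mul_sum, ← Finset.sum_sub_distrib, ← Finset.sum_add_distrib]
    refine Finset.sum_congr rfl fun i _ => ?_
    by_cases h : 0 < x i
    · simp only [h, if_true]; ring
    · have : x i = 0 := le_antisymm (not_lt.1 h) (hL.nn i)
      simp [this]
  have hmu : ∑ i, p i * x i = r := hm
  rw [hs]
  unfold va et at hid
  rw [hm] at hid
  rw [hmu] at hid ⊢
  have e1 : (hh k p x - k * (1 - r)) * lam k p x * l = (hh k p x - k * (1 - r)) * (l - r) := by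
    rw [mul_assoc, hll]
  rw [e1] at hid
  have e2 : l * (lam k p x * hh k p x - k * (1 - r)) = hh k p x * (l - r) - l * (k * (1 - r)) := by
    rw [← hll]; ring
  rw [e2]
  linear_combination hid

end Pool.Agent.Q297.EM
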